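import Mathlib

/-!
helper525, MP_2eb777_ag (affine lines in the coarse moduli space of curves of genus g):
statements of the independent parts.
-/

open Polynomial CategoryTheory AlgebraicGeometry

namespace W525.MgA1

/-- `R[x,y]/(y^2 - f(x))` -/
abbrev HRing {R : Type} [CommRing R] (f : R[X]) : Type := AdjoinRoot (X ^ 2 - C f : R[X][X])

/-- the coordinate `x` -/
noncomputable abbrev HRing.x {R : Type} [CommRing R] (f : R[X]) : HRing f :=
  AdjoinRoot.of (X ^ 2 - C f : R[X][X]) X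

/-- the coordinate `y` -/
noncomputable abbrev HRing.y {R : Type} [CommRing R] (f : R[X]) : HRing f :=
  AdjoinRoot.root (X ^ 2 - C f : R[X][X])

/-- (MG-NI) the function fields of `y^2 = x^n - a` and `v^2 = u^n - b u` are not isomorphic -/
def S_NI : Prop :=
  ∀ (n : ℕ), Even n → 6 ≤ n → ∀ (a b : ℂ), a ≠ 0 → b ≠ 0 →
  ∀ (K : Type) [Field K] [Algebra ℂ K] (x y u v : K),
    Transcendental ℂ x → Transcendental ℂ u →
    y ^ 2 = x ^ n - algebraMap ℂ K a → v ^ 2 = u ^ n - algebraMap ℂ K b * u →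
    IntermediateField.adjoin ℂ {x, y} = ⊤ → IntermediateField.adjoin ℂ {u, v} = ⊤ → False

/-- (MG-SMF) for `f` monic with `(f, f') = 1` and `2` invertible, the affine curve
`y^2 = f(x)` over `R` is smooth of relative dimension 1 -/
def S_SMF : Prop :=
  ∀ (R : Type) [CommRing R] (f : R[X]), f.Monic → IsUnit (2 : R) →
    IsCoprime f (derivative f) →
    SmoothOfRelativeDimension 1 (Spec.map (CommRingCat.ofHom (algebraMap R (HRing f))))

/-- (MG-SMG) for arbitrary `f` the open part `y ≠ 0` of `y^2 = f(x)` is smooth of relative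
dimension 1, if `2` is invertible -/
def S_SMG : Prop :=
  ∀ (R : Type) [CommRing R] (f : R[X]), IsUnit (2 : R) →
    SmoothOfRelativeDimension 1
      (Spec.map (CommRingCat.ofHom (algebraMap R (Localization.Away (HRing.y f)))))

/-- (MG-GEN) the Cech computation of `H^1(X, O_X)` for the hyperelliptic curve with the two charts
`y^2 = f(x)` and `v^2 = g(u)`, `u = 1/x`, `v = y/x^m` -/
def S_GEN : Prop :=
  ∀ (k : Type) [Field k] (m : ℕ), 1 ≤ m → ∀ (f g : k[X]) (C : Type) [CommRing C] [Algebra k C]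
    (α : HRing f →ₐ[k] C) (β : HRing g →ₐ[k] C),
    (letI := α.toRingHom.toAlgebra; IsLocalization.Away (HRing.x f) C) →
    α (HRing.x f) * β (HRing.x g) = 1 →
    α (HRing.y f) = α (HRing.x f) ^ m * β (HRing.y g) →
    Module.finrank k (C ⧸ (LinearMap.range α.toLinearMap ⊔ LinearMap.range β.toLinearMap)) = m - 1

/-- the ring `ℂ[s,t]/(s^n - t^(n-1) - 1)`; `s` is `BRing.s`, `t` is `BRing.t` -/
abbrev BRing (n : ℕ) : Type := AdjoinRoot (X ^ (n - 1) - C (X ^ n - 1) : ℂ[X][X])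

noncomputable abbrev BRing.s (n : ℕ) : BRing n :=
  AdjoinRoot.of (X ^ (n - 1) - C (X ^ n - 1) : ℂ[X][X]) X

noncomputable abbrev BRing.t (n : ℕ) : BRing n :=
  AdjoinRoot.root (X ^ (n - 1) - C (X ^ n - 1) : ℂ[X][X])

/-- (MG-DOM) the ring `ℂ[s,t]/(s^n - t^(n-1) - 1)` is a domain -/
def S_DOM : Prop := ∀ n : ℕ, 2 ≤ n → IsDomain (BRing n)

/-- (MG-DESC) descent along `Spec ℂ[s,t]/(s^n - t^(n-1) - 1) ⟶ Spec ℂ[a]`, `a = s^n`: a morphism to a
separated scheme which is invariant under `(s,t) ↦ (ζ s, ξ t)`, `ζ^n = 1`, `ξ^(n-1) = 1`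
factors through `Spec ℂ[a]` -/
def S_DESC : Prop :=
  ∀ (n : ℕ), 2 ≤ n → IsDomain (BRing n) →
  ∀ (M : Scheme.{0}) [M.IsSeparated] (h : Spec (.of (BRing n)) ⟶ M),
    (∀ (γ : BRing n →ₐ[ℂ] BRing n) (ζ ξ : ℂ), ζ ^ n = 1 → ξ ^ (n - 1) = 1 →
      γ (BRing.s n) = ζ • BRing.s n → γ (BRing.t n) = ξ • BRing.t n →
      Spec.map (CommRingCat.ofHom γ.toRingHom) ≫ h = h) →
    ∃ h' : Spec (.of ℂ[X]) ⟶ M,
      Spec.map (CommRingCat.ofHom (aeval (BRing.s n ^ n) : ℂ[X] →ₐ[ℂ] BRing n).toRingHom) ≫ h' = h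

end W525.MgA1
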